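import Pool.Agent.R920.CH.Two
import Pool.Agent.R920.CH.Bin

set_option autoImplicit false

/-! A sufficient criterion for the Riemann-Roch conditions of rank two. -/

namespace Pool.Agent.T2H43.RR

open Finset Polynomial Pool.Agent.R920.CH

/-- integer-valued polynomials are integral combinations of the binomial polynomials -/
theorem polya (n : ℕ) (g : ℚ[X]) (hg : IsIntegerValued g) (hn : g.natDegree ≤ n) :
    ∃ c : ℕ → ℤ, g = ∑ k ∈ range (n + 1), C (c k : ℚ) * bin k := by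
  choose G hG using hg
  refine ⟨fun k => (fwdDiff (1 : ℤ))^[k] G 0, ?_⟩
  have hval : ∀ (m k : ℕ), (bin k).eval (m : ℚ) = (m.choose k : ℚ) := by
    intro m k
    rw [bin, eval_mul, eval_C, descPochhammer_eval_eq_descFactorial, Nat.descFactorial_eq_factorial_mul_choose]
    push_cast
    have : (k.factorial : ℚ) ≠ 0 := by exact_mod_cast k.factorial_ne_zero
    field_simp
  set h : ℚ[X] := ∑ k ∈ range (n + 1), C (((fwdDiff (1 : ℤ))^[k] G 0 : ℤ) : ℚ) * bin k with hh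
  have hdeg : h.natDegree ≤ n := by
    apply natDegree_sum_le_of_forall_le
    intro k hk
    refine natDegree_mul_le.trans ?_
    rw [natDegree_C, zero_add]
    exact (natDegree_bin k).trans (Nat.lt_succ_iff.1 (mem_range.1 hk))
  have heval : ∀ m ∈ range (n + 1), g.eval (m : ℚ) = h.eval (m : ℚ) := by
    intro m hm
    rw [mem_range] at hm
    have h1 := hG (m : ℤ)
    have h2 := shift_eq_sum_fwdDiff_iter (1 : ℤ) G m 0
    have h3 : G (m : ℤ) = ∑ k ∈ range (m + 1), (m.choose k : ℤ) * (fwdDiff (1 : ℤ))^[k] G 0 := by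
      rw [zero_add, nsmul_eq_mul, mul_one] at h2
      rw [h2]
      refine sum_congr rfl fun k _ => ?_
      rw [nsmul_eq_mul]
    have h4 : (g.eval (m : ℚ)) = ((G (m : ℤ) : ℤ) : ℚ) := by
      rw [← h1]
      push_cast
      rfl
    rw [h4, h3, hh, eval_finsetSum]
    push_cast
    have h5 : range (m + 1) ⊆ range (n + 1) := range_subset_range.2 (by omega)
    rw [← sum_subset h5]
    · refine sum_congr rfl fun k _ => ?_
      rw [eval_mul, eval_C, hval]
      ring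
    · intro k _ hk
      rw [mem_range, not_lt] at hk
      rw [eval_mul, eval_C, hval, Nat.choose_eq_zero_of_lt (by omega)]
      push_cast
      ring
  -- two polynomials of degree `≤ n` which agree at `n + 1` points
  have hinj : Set.InjOn (fun m : ℕ => (m : ℚ)) (range (n + 1) : Finset ℕ) := by
    intro a _ b _ hab
    have h' : (a : ℚ) = b := hab
    exact_mod_cast h'
  apply Polynomial.eq_of_degrees_lt_of_eval_index_eq (range (n + 1)) hinj
  · rw [card_range]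
    exact (degree_le_natDegree).trans_lt (by exact_mod_cast Nat.lt_succ_of_le hn)
  · rw [card_range]
    exact (degree_le_natDegree).trans_lt (by exact_mod_cast Nat.lt_succ_of_le hdeg)
  · exact heval

/-- products of consecutive integers -/
lemma fact_dvd (k : ℕ) (m : ℤ) : (k.factorial : ℤ) ∣ ∏ j ∈ range k, (m - j) := by
  obtain ⟨z, hz⟩ := bin_int k m
  refine ⟨z, ?_⟩
  have h1 : (bin k).eval (m : ℚ) = (k.factorial : ℚ)⁻¹ * ∏ j ∈ range k, ((m : ℚ) - j) := by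
    rw [bin, eval_mul, eval_C, descPochhammer_eval_eq_prod_range]
  rw [h1] at hz
  have h0 : (k.factorial : ℚ) ≠ 0 := by exact_mod_cast k.factorial_ne_zero
  have h2 : ∏ j ∈ range k, ((m : ℚ) - j) = k.factorial * z := by
    rw [← hz]
    field_simp
  exact_mod_cast h2

/-- square roots modulo powers of odd primes -/
lemma exists_sqrt (p : ℕ) (hp : p.Prime) (hp2 : p ≠ 2) (f : ℤ) (hf : ¬ (p : ℤ) ∣ f)
    (h : ∃ t : ℤ, (p : ℤ) ∣ f - t ^ 2) (e : ℕ) : ∃ a : ℤ, (p : ℤ) ^ e ∣ f - a ^ 2 := by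
  have hpi := Nat.prime_iff_prime_int.1 hp
  induction e with
  | zero => exact ⟨0, by rw [pow_zero]; exact one_dvd _⟩
  | succ e ih =>
    rcases Nat.eq_zero_or_pos e with he | he
    · obtain ⟨t, ht⟩ := h
      exact ⟨t, by rw [he, zero_add, pow_one]; exact ht⟩
    · obtain ⟨a, c, hc⟩ := ih
      have ha : ¬ (p : ℤ) ∣ 2 * a := by
        intro h1
        rcases hpi.dvd_or_dvd h1 with h2 | h2
        · have h3 : p ∣ 2 := by exact_mod_cast h2
          have := Nat.le_of_dvd (by norm_num) h3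
          have := hp.two_le
          omega
        · apply hf
          have h3 : (p : ℤ) ∣ f - a ^ 2 := by
            rw [hc]
            exact Dvd.dvd.mul_right (dvd_pow_self _ (by omega)) _
          have h4 : (p : ℤ) ∣ a ^ 2 := Dvd.dvd.pow h2 (by norm_num)
          have := dvd_add h3 h4
          rwa [sub_add_cancel] at this
      obtain ⟨u, v, huv⟩ := (Irreducible.coprime_iff_not_dvd hpi.irreducible).mpr ha
      refine ⟨a + (p : ℤ) ^ e * (c * v), ?_⟩
      obtain ⟨e', rfl⟩ : ∃ e', e = e' + 1 := ⟨e - 1, by omega⟩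
      refine ⟨c * u - (p : ℤ) ^ e' * (c * v) ^ 2, ?_⟩
      have h1 : v * (2 * a) = 1 - u * p := by linarith
      calc f - (a + (p : ℤ) ^ (e' + 1) * (c * v)) ^ 2
          = (f - a ^ 2) - (p : ℤ) ^ (e' + 1) * c * (v * (2 * a)) -
            (p : ℤ) ^ (e' + 1) * (p : ℤ) ^ (e' + 1) * (c * v) ^ 2 := by ring
        _ = (p : ℤ) ^ (e' + 1 + 1) * (c * u - (p : ℤ) ^ e' * (c * v) ^ 2) := by
            rw [hc, h1]
            ring

/-- the product in `ℤ[√f]` -/
def Q (f s : ℤ) (k : ℕ) : ℤ√f := ∏ j ∈ range k, (⟨-(j : ℤ), s⟩ : ℤ√f)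

lemma Q_bad (n : ℕ) (f s : ℤ) (p : ℕ) (hp : p.Prime)
    (h : ∀ r, p ^ r ≤ n → (p : ℤ) ^ r ∣ s) (k : ℕ) (hk : k ≤ n) (e : ℕ)
    (he : p ^ e ∣ k.factorial) : ((p : ℤ) ^ e : ℤ) ∣ (Q f s k).re := by
  rcases Nat.eq_zero_or_pos k with hk0 | hk0
  · rw [hk0, Nat.factorial_zero, Nat.dvd_one] at he
    have : ((p : ℤ) ^ e : ℤ) = 1 := by exact_mod_cast he
    rw [this]
    exact one_dvd _
  obtain ⟨m, rfl⟩ : ∃ m, k = m + 1 := ⟨k - 1, by omega⟩
  -- one factor
  have hfac : ∀ j : ℕ, 1 ≤ j → j ≤ n → ((p : ℤ) ^ (j.factorization p) : ℤ) ∣ s := by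
    intro j h1 h2
    exact h _ ((Nat.le_of_dvd (by omega) (Nat.ordProj_dvd j p)).trans h2)
  have hone : ∀ j : ℕ, 1 ≤ j → j ≤ n →
      (((p : ℤ) ^ (j.factorization p) : ℤ) : ℤ√f) ∣ (⟨-(j : ℤ), s⟩ : ℤ√f) := by
    intro j h1 h2
    rw [Zsqrtd.intCast_dvd]
    refine ⟨?_, hfac j h1 h2⟩
    rw [Int.dvd_neg]
    exact_mod_cast Nat.ordProj_dvd j p
  have hprod : ((∏ j ∈ range m, ((p : ℤ) ^ ((j + 1).factorization p) : ℤ) : ℤ) : ℤ√f) ∣
      ∏ j ∈ range m, (⟨-((j + 1 : ℕ) : ℤ), s⟩ : ℤ√f) := by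
    rw [Int.cast_prod]
    apply prod_dvd_prod_of_dvd
    intro j hj
    rw [mem_range] at hj
    exact hone (j + 1) (by omega) (by omega)
  have hzero : (((p : ℤ) ^ ((m + 1).factorization p) : ℤ) : ℤ√f) ∣ (⟨-((0 : ℕ) : ℤ), s⟩ : ℤ√f) := by
    rw [Zsqrtd.intCast_dvd]
    refine ⟨by simp, hfac (m + 1) (by omega) hk⟩
  have hQ : Q f s (m + 1) = (∏ j ∈ range m, (⟨-((j + 1 : ℕ) : ℤ), s⟩ : ℤ√f)) *
      (⟨-((0 : ℕ) : ℤ), s⟩ : ℤ√f) := by
    rw [Q, prod_range_succ']
  have hall := mul_dvd_mul hprod hzero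
  rw [← hQ, ← Int.cast_mul] at hall
  have hre := ((Zsqrtd.intCast_dvd _ _).1 hall).1
  refine dvd_trans ?_ hre
  -- exponents
  have e1 : ∏ j ∈ range m, ((p : ℤ) ^ ((j + 1).factorization p) : ℤ) =
      (p : ℤ) ^ (m.factorial.factorization p) := by
    rw [prod_pow_eq_pow_sum]
    congr 1
    rw [← prod_range_add_one_eq_factorial, Nat.factorization_prod (fun j _ => by omega)]
    rw [Finsupp.finsetSum_apply]
  rw [e1, ← pow_add]
  apply pow_dvd_pow
  have e2 : (m + 1).factorial.factorization p = m.factorial.factorization p +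
      (m + 1).factorization p := by
    rw [Nat.factorial_succ, Nat.factorization_mul (by omega) (Nat.factorial_ne_zero m)]
    rw [Finsupp.add_apply, add_comm]
  rw [← e2]
  exact (hp.pow_dvd_iff_le_factorization (Nat.factorial_ne_zero _)).1 he

lemma Q_add_star (f s : ℤ) (k : ℕ) : Q f s k + star (Q f s k) = ((2 * (Q f s k).re : ℤ) : ℤ√f) := by
  ext <;> simp <;> ring

lemma star_Q (f s : ℤ) (k : ℕ) : star (Q f s k) = ∏ j ∈ range k, (⟨-(j : ℤ), -s⟩ : ℤ√f) := by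
  unfold Q
  induction k with
  | zero => simp
  | succ k ih =>
    rw [prod_range_succ, prod_range_succ, star_mul', ih]
    rfl

lemma Q_split (f s : ℤ) (p : ℕ) (hp : p.Prime) (hp2 : p ≠ 2) (hf : ¬ (p : ℤ) ∣ f)
    (h : ∃ t : ℤ, (p : ℤ) ∣ f - t ^ 2) (k e : ℕ) (he : p ^ e ∣ k.factorial) :
    ((p : ℤ) ^ e : ℤ) ∣ 2 * (Q f s k).re := by
  obtain ⟨a, ha⟩ := exists_sqrt p hp hp2 f hf h e
  have ha' : ((a : ZMod (p ^ e)) * (a : ZMod (p ^ e))) = ((f : ℤ) : ZMod (p ^ e)) := by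
    have h1 : (((f - a ^ 2 : ℤ)) : ZMod (p ^ e)) = 0 := by
      rw [ZMod.intCast_zmod_eq_zero_iff_dvd]
      exact_mod_cast ha
    push_cast at h1
    linear_combination -h1
  let ψ : ℤ√f →+* ZMod (p ^ e) := Zsqrtd.lift ⟨(a : ZMod (p ^ e)), ha'⟩
  have hψ : ∀ x y : ℤ, ψ ⟨x, y⟩ = (x : ZMod (p ^ e)) + y * a := by
    intro x y
    simp [ψ, Zsqrtd.lift]
  have hzero : ∀ m : ℤ, ∏ j ∈ range k, ((m : ZMod (p ^ e)) - j) = 0 := by
    intro m
    have h1 : ((∏ j ∈ range k, (m - (j : ℤ)) : ℤ) : ZMod (p ^ e)) = 0 := by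
      rw [ZMod.intCast_zmod_eq_zero_iff_dvd]
      refine dvd_trans ?_ (fact_dvd k m)
      exact_mod_cast he
    rw [← h1]
    push_cast
    rfl
  have h1 : ψ (Q f s k) = 0 := by
    rw [Q, map_prod, ← hzero (s * a)]
    refine prod_congr rfl fun j _ => ?_
    rw [hψ]
    push_cast
    ring
  have h2 : ψ (star (Q f s k)) = 0 := by
    rw [star_Q, map_prod, ← hzero (-s * a)]
    refine prod_congr rfl fun j _ => ?_
    rw [hψ]
    push_cast
    ring
  have h3 : ψ ((2 * (Q f s k).re : ℤ) : ℤ√f) = 0 := by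
    rw [← Q_add_star, map_add, h1, h2, add_zero]
  rw [map_intCast, ZMod.intCast_zmod_eq_zero_iff_dvd] at h3
  exact_mod_cast h3

/-- every prime `p ≤ n` is split, or the powers of `p` up to `n` divide `s` -/
def Cond (n : ℕ) (f s : ℤ) : Prop := ∀ p : ℕ, p.Prime → p ≤ n →
  (∀ r, p ^ r ≤ n → (p : ℤ) ^ r ∣ s) ∨ (p ≠ 2 ∧ ¬ (p : ℤ) ∣ f ∧ ∃ t : ℤ, (p : ℤ) ∣ f - t ^ 2)

lemma fact_dvd_re (n : ℕ) (f s : ℤ) (h : Cond n f s) (k : ℕ) (hk : k ≤ n) :
    (k.factorial : ℤ) ∣ 2 * (Q f s k).re := by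
  rw [← Int.dvd_natAbs, Int.natCast_dvd_natCast, Nat.dvd_iff_prime_pow_dvd_dvd]
  intro p e hp he
  rw [← Int.natCast_dvd_natCast, Int.dvd_natAbs]
  push_cast
  rcases Nat.eq_zero_or_pos e with he0 | he0
  · rw [he0, pow_zero]
    exact one_dvd _
  have hpk : p ≤ k := by
    have h1 : p ∣ k.factorial := (dvd_pow_self p (by omega)).trans he
    exact (hp.dvd_factorial).1 h1
  rcases h p hp (hpk.trans hk) with h1 | ⟨h1, h2, h3⟩
  · exact Dvd.dvd.mul_left (Q_bad n f s p hp h1 k hk e he) _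
  · exact Q_split f s p hp h1 h2 h3 k e he

theorem RR_of (n : ℕ) (f s : ℤ) (h : Cond n f s) : RiemannRoch n (poly2 0 (-(f * s ^ 2))) := by
  intro g hg hn
  obtain ⟨x, y, hxy, hs, hp⟩ := roots2 0 (-(f * s ^ 2))
  rw [hxy]
  have hy : y = -x := by
    push_cast at hs
    linear_combination hs
  obtain ⟨w, hw⟩ := IsAlgClosed.exists_pow_nat_eq (f : ℂ) (n := 2) (by norm_num)
  have hx2 : x ^ 2 = (s * w) ^ 2 := by
    rw [hy] at hp
    push_cast at hp
    rw [mul_pow, hw]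
    linear_combination -hp
  -- the polynomial as a combination of binomials
  obtain ⟨c, hc⟩ := polya n g hg hn
  let φ : ℤ√f →+* ℂ := Zsqrtd.lift ⟨w, by rw [← hw]; ring⟩
  have hφ : ∀ a b : ℤ, φ ⟨a, b⟩ = (a : ℂ) + b * w := by
    intro a b
    simp [φ, Zsqrtd.lift]
  have key : ∀ k ≤ n, ∃ z : ℤ, (aeval (s * w : ℂ) (bin k) + aeval (-(s * w) : ℂ) (bin k)) = z := by
    intro k hk
    obtain ⟨z, hz⟩ := fact_dvd_re n f s h k hk
    refine ⟨z, ?_⟩
    rw [aeval_bin, aeval_bin, ← mul_add]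
    have h0 : (k.factorial : ℂ) ≠ 0 := by exact_mod_cast k.factorial_ne_zero
    have h1 : φ (Q f s k) = ∏ j ∈ range k, ((s * w : ℂ) - j) := by
      rw [Q, map_prod]
      refine prod_congr rfl fun j _ => ?_
      rw [hφ]
      push_cast
      ring
    have h2 : φ (star (Q f s k)) = ∏ j ∈ range k, (-(s * w : ℂ) - j) := by
      rw [star_Q, map_prod]
      refine prod_congr rfl fun j _ => ?_
      rw [hφ]
      push_cast
      ring
    rw [← h1, ← h2, ← map_add, Q_add_star, map_intCast, hz]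
    push_cast
    field_simp
  have hsum : ∃ z : ℤ, (aeval (s * w : ℂ) g + aeval (-(s * w) : ℂ) g) = z := by
    have hall : ∀ k, ∃ z : ℤ, k ≤ n → (aeval (s * w : ℂ) (bin k) + aeval (-(s * w) : ℂ) (bin k)) = z := by
      intro k
      by_cases hk : k ≤ n
      · obtain ⟨z, hz⟩ := key k hk
        exact ⟨z, fun _ => hz⟩
      · exact ⟨0, fun h => absurd h hk⟩
    choose z hz using hall
    refine ⟨∑ k ∈ range (n + 1), c k * z k, ?_⟩
    rw [hc, map_sum, map_sum, ← sum_add_distrib]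
    push_cast
    refine sum_congr rfl fun k hk => ?_
    rw [← hz k (Nat.lt_succ_iff.1 (mem_range.1 hk)), map_mul, map_mul, aeval_C, aeval_C]
    simp
    ring
  have hxs : x = s * w ∨ x = -(s * w) := by
    rcases eq_or_eq_neg_of_sq_eq_sq _ _ hx2 with h | h
    · exact Or.inl h
    · exact Or.inr h
  obtain ⟨z, hz⟩ := hsum
  refine ⟨z, ?_⟩
  rw [← hz]
  rcases hxs with h1 | h1
  · rw [hy, h1]
    simp
  · rw [hy, h1]
    simp
    ring

end Pool.Agent.T2H43.RR
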