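import Pool.Agent.R852.BC.Char

set_option autoImplicit false

/-! The real character modulo `8 N` of an integer which is not a square (with the values at all
odd primes not dividing the integer; variant of `Pool.Agent.R852.BC.exists_char`). -/

namespace Pool.Agent.T2H43.RR

open Finset Pool.Agent.R852.BC

/-- For every nonzero integer `D` which is not a square there are an odd squarefree `N ∣ D` and a
character `θ` modulo `8` such that `θ(l) (l / N) = (D / l)` for the odd primes `l` which do not divide `D`,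
and the character is not trivial. -/
theorem exists_char2 (D : ℤ) (hD0 : D ≠ 0) (hD : ¬ IsSquare D) :
    ∃ (N : ℕ) (θ : MulChar (ZMod 8) ℤ), N ≠ 0 ∧ Odd N ∧ Squarefree N ∧ N ∣ D.natAbs ∧
      (N = 1 → θ ≠ 1) ∧
      ∀ l : ℕ, l.Prime → l ≠ 2 → ¬ (l : ℤ) ∣ D →
        θ (l : ZMod 8) * jacobiSym (l : ℤ) N = jacobiSym D l := by
  obtain ⟨s, f, hfs, hs⟩ := Nat.sq_mul_squarefree D.natAbs
  have hs0 : s ≠ 0 := by
    rintro rfl
    exact hD0 (Int.natAbs_eq_zero.mp (by rw [← hfs, mul_zero]))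
  have hf0 : f ≠ 0 := by
    rintro rfl
    exact hD0 (Int.natAbs_eq_zero.mp (by rw [← hfs]; simp))
  -- the odd part
  obtain ⟨e, N, he, hNodd, hsN⟩ : ∃ e N : ℕ, e ≤ 1 ∧ Odd N ∧ s = 2 ^ e * N := by
    rcases Nat.even_or_odd s with h | h
    · obtain ⟨k, hk⟩ := h.two_dvd
      refine ⟨1, k, le_rfl, ?_, by rw [pow_one, hk]⟩
      by_contra hcon
      rw [Nat.not_odd_iff_even] at hcon
      obtain ⟨j, hj⟩ := hcon.two_dvd
      have h4 : 2 * 2 ∣ s := ⟨j, by rw [hk, hj]; ring⟩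
      have := hs 2 h4
      exact absurd (Nat.isUnit_iff.mp this) (by norm_num)
    · exact ⟨0, s, by norm_num, h, by rw [pow_zero, one_mul]⟩
  have hN0 : N ≠ 0 := by
    rintro rfl
    exact hs0 (by rw [hsN, mul_zero])
  have hNs : N ∣ s := ⟨2 ^ e, by rw [hsN]; ring⟩
  have hNsq : Squarefree N := hs.squarefree_of_dvd hNs
  have hND : N ∣ D.natAbs := hNs.trans ⟨f ^ 2, by rw [← hfs]; ring⟩
  -- the sign
  obtain ⟨a, ha, hDa⟩ : ∃ a : ℕ, a ≤ 1 ∧ D = (-1) ^ a * ((f : ℤ) ^ 2 * (2 ^ e * N)) := by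
    have h1 : ((D.natAbs : ℕ) : ℤ) = (f : ℤ) ^ 2 * (2 ^ e * N) := by
      rw [← hfs, hsN]; push_cast; ring
    rcases Int.natAbs_eq D with h | h
    · exact ⟨0, by norm_num, by rw [← h1, pow_zero, one_mul]; exact h⟩
    · refine ⟨1, le_rfl, ?_⟩
      rw [← h1, pow_one, neg_one_mul]
      exact h
  set k : ℕ := if N % 4 = 3 then 1 else 0 with hk
  refine ⟨N, chi4' ^ (a + k) * ZMod.χ₈ ^ e, hN0, hNodd, hNsq, hND, ?_, ?_⟩
  · intro hN1 hθ
    have hk0 : k = 0 := by rw [hk, hN1]; norm_num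
    rw [hk0, add_zero] at hθ
    have hval : ∀ x : ZMod 8, (chi4' ^ a * ZMod.χ₈ ^ e : MulChar (ZMod 8) ℤ) x = (1 : MulChar (ZMod 8) ℤ) x := by
      intro x; rw [hθ]
    have h3 : (1 : MulChar (ZMod 8) ℤ) (3 : ZMod 8) = 1 := MulChar.one_apply (by decide)
    have h5 : (1 : MulChar (ZMod 8) ℤ) (5 : ZMod 8) = 1 := MulChar.one_apply (by decide)
    have v3 := hval 3
    have v5 := hval 5
    rw [h3] at v3
    rw [h5] at v5
    have c3 : chi4' (3 : ZMod 8) = -1 := by decide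
    have c5 : chi4' (5 : ZMod 8) = 1 := by decide
    have d3 : ZMod.χ₈ (3 : ZMod 8) = -1 := by decide
    have d5 : ZMod.χ₈ (5 : ZMod 8) = -1 := by decide
    have ha' : a = 0 ∨ a = 1 := by omega
    have he' : e = 0 ∨ e = 1 := by omega
    rcases ha' with ha0 | ha1 <;> rcases he' with he0 | he1
    · apply hD
      refine ⟨f, ?_⟩
      rw [hDa, ha0, he0, hN1]
      push_cast
      ring
    · rw [ha0, he1, pow_zero, one_mul, pow_one, d3] at v3
      norm_num at v3
    · rw [ha1, he0, pow_zero, mul_one, pow_one, c3] at v3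
      norm_num at v3
    · rw [ha1, he1, pow_one, pow_one, MulChar.mul_apply, c5, d5] at v5
      norm_num at v5
  · intro l hl hl2 hlD
    haveI : Fact l.Prime := ⟨hl⟩
    have hlodd : Odd l := hl.odd_of_ne_two hl2
    have hu : IsUnit (l : ZMod 8) := by
      rw [ZMod.isUnit_iff_coprime]
      have : Nat.Coprime l (2 ^ 3) := Nat.Coprime.pow_right 3 (Nat.coprime_two_right.mpr hlodd)
      simpa using this
    have hlf : ¬ (l : ℤ) ∣ (f : ℤ) := by
      intro h
      apply hlD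
      rw [hDa]
      exact Dvd.dvd.mul_left (Dvd.dvd.mul_right (Dvd.dvd.pow h (by norm_num)) _) _
    have gcd1 : ∀ z : ℤ, ¬ (l : ℤ) ∣ z → z.gcd l = 1 := by
      intro z hz
      have h1 : IsCoprime (l : ℤ) z :=
        (Prime.coprime_iff_not_dvd (Nat.prime_iff_prime_int.mp hl)).mpr hz
      rw [← Int.isCoprime_iff_gcd_eq_one]
      exact h1.symm
    have e2 : jacobiSym D l = ZMod.χ₄ (l : ZMod 4) ^ a * (ZMod.χ₈ (l : ZMod 8) ^ e *
        jacobiSym (N : ℤ) l) := by
      rw [hDa, jacobiSym.mul_left, jacobiSym.mul_left, jacobiSym.mul_left, jacobiSym.pow_left (-1),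
        jacobiSym.at_neg_one hlodd, jacobiSym.sq_one' (gcd1 f hlf), jacobiSym.pow_left 2,
        jacobiSym.at_two hlodd, one_mul]
    have e3 := recip N l hNodd hlodd
    have e4 : (chi4' ^ (a + k) * ZMod.χ₈ ^ e : MulChar (ZMod 8) ℤ) (l : ZMod 8) =
        ZMod.χ₄ (l : ZMod 4) ^ (a + k) * ZMod.χ₈ (l : ZMod 8) ^ e := by
      rw [MulChar.mul_apply]
      have p1 : ∀ (χ : MulChar (ZMod 8) ℤ) (n : ℕ), (χ ^ n) (l : ZMod 8) = χ (l : ZMod 8) ^ n := by
        intro χ n
        induction n with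
        | zero => rw [pow_zero, pow_zero, MulChar.one_apply hu]
        | succ n ih => rw [pow_succ, pow_succ, MulChar.mul_apply, ih]
      rw [p1, p1, chi4'_nat l hlodd]
    rw [e4]
    rw [e3] at e2
    have e5 : ZMod.χ₄ (l : ZMod 4) ^ k = if N % 4 = 3 then ZMod.χ₄ (l : ZMod 4) else 1 := by
      rw [hk]
      split_ifs <;> simp
    rw [pow_add, e5, e2]
    ring


end Pool.Agent.T2H43.RR
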