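import Pool.Agent.Y818.GF.SW

set_option autoImplicit false

/-! Sums of Dirichlet characters over primes, moduli up to a power of the logarithm. -/

namespace Pool.Agent.T2H43.RR

open Finset Filter H343E
open Pool.Agent.Y818.GF (FF sw_FF)

theorem sum_char (A : ℕ) : ∃ C : ℝ, 0 ≤ C ∧ ∃ x0 : ℕ, ∀ x : ℕ, x0 ≤ x → ∀ (q : ℕ) [NeZero q],
    (q : ℝ) ≤ Real.log x ^ A → ∀ χ : DirichletCharacter ℂ q, χ ≠ 1 →
    ‖∑ p ∈ (Icc 1 x).filter (fun p => p.Prime), χ (p : ZMod q)‖ ≤ C * (x / Real.log x ^ 5) := by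
  classical
  obtain ⟨C, hC, x0, h⟩ := sw_FF A
  refine ⟨C, hC, max x0 3, ?_⟩
  intro x hx q _ hq χ hχ
  have hq0 : 0 < q := Nat.pos_of_ne_zero (NeZero.ne q)
  have hx0 : x0 ≤ x := (le_max_left _ _).trans hx
  have hx3 : 3 ≤ x := (le_max_right _ _).trans hx
  have hL : 0 < Real.log x := Real.log_pos (by exact_mod_cast (by omega : 1 < x))
  -- split into classes
  have e1 : ∑ p ∈ (Icc 1 x).filter (fun p => p.Prime), χ (p : ZMod q) =
      ∑ a ∈ range q, χ (a : ZMod q) * ((piAP x q a : ℝ) : ℂ) := by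
    have hmaps : ∀ p ∈ (Icc 1 x).filter (fun p => p.Prime), p % q ∈ range q := fun p _ =>
      mem_range.2 (Nat.mod_lt _ hq0)
    rw [← sum_fiberwise_of_maps_to hmaps]
    refine sum_congr rfl fun a ha => ?_
    have e2 : ∀ p ∈ ((Icc 1 x).filter (fun p => p.Prime)).filter (fun p => p % q = a),
        χ (p : ZMod q) = χ (a : ZMod q) := by
      intro p hp
      rw [mem_filter] at hp
      rw [← hp.2, ZMod.natCast_mod]
    rw [sum_congr rfl e2, sum_const, nsmul_eq_mul, mul_comm]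
    congr 1
    unfold piAP
    push_cast
    congr 2
    ext p
    simp only [mem_filter, Nat.ModEq]
    rw [mem_range] at ha
    rw [Nat.mod_eq_of_lt ha]
    tauto
  have e3 : ∑ a ∈ range q, χ (a : ZMod q) = 0 := by
    rw [← MulChar.sum_eq_zero_of_ne_one hχ]
    refine sum_nbij' (fun a => (a : ZMod q)) (fun z => z.val) ?_ ?_ ?_ ?_ ?_
    · intro a _; exact mem_univ _
    · intro z _; exact mem_range.2 (ZMod.val_lt z)
    · intro a ha; exact ZMod.val_cast_of_lt (mem_range.1 ha)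
    · intro z _; exact ZMod.natCast_zmod_val z
    · intro a _; rfl
  have e4 : ∑ a ∈ range q, χ (a : ZMod q) * ((piAP x q a : ℝ) : ℂ) =
      ∑ a ∈ range q, χ (a : ZMod q) * ((piAP x q a - FF x / (Nat.totient q : ℝ) : ℝ) : ℂ) := by
    have e5 : ∑ a ∈ range q, χ (a : ZMod q) * ((FF x / (Nat.totient q : ℝ) : ℝ) : ℂ) = 0 := by
      rw [← sum_mul, e3, zero_mul]
    rw [← sub_zero (∑ a ∈ range q, χ (a : ZMod q) * ((piAP x q a : ℝ) : ℂ)), ← e5,
      ← sum_sub_distrib]
    refine sum_congr rfl fun a _ => ?_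
    push_cast
    ring
  rw [e1, e4]
  have e6 : ∀ a ∈ range q, ‖χ (a : ZMod q) * ((piAP x q a - FF x / (Nat.totient q : ℝ) : ℝ) : ℂ)‖ ≤
      if a.Coprime q then C * (x / ((Nat.totient q : ℝ) * Real.log x ^ 5)) else 0 := by
    intro a ha
    rw [mem_range] at ha
    split_ifs with hc
    · rw [norm_mul]
      calc ‖χ (a : ZMod q)‖ * ‖((piAP x q a - FF x / (Nat.totient q : ℝ) : ℝ) : ℂ)‖
          ≤ 1 * |piAP x q a - FF x / (Nat.totient q : ℝ)| := by
            apply mul_le_mul (χ.norm_le_one _) _ (norm_nonneg _) zero_le_one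
            rw [Complex.norm_real, Real.norm_eq_abs]
        _ ≤ _ := by
            rw [one_mul]
            exact h x hx0 q a hq0 hq ha hc
    · have : ¬ IsUnit (a : ZMod q) := fun hu => hc ((ZMod.isUnit_iff_coprime a q).1 hu)
      rw [MulChar.map_nonunit _ this, zero_mul, norm_zero]
  refine (norm_sum_le_of_le _ e6).trans ?_
  rw [← sum_filter, sum_const, nsmul_eq_mul]
  have e7 : (((range q).filter (fun a => a.Coprime q)).card : ℝ) = (Nat.totient q : ℝ) := by
    rw [Nat.totient]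
    congr 2
    ext a
    simp only [mem_filter, Nat.coprime_comm]
  rw [e7]
  have hφ : (0 : ℝ) < (Nat.totient q : ℝ) := by exact_mod_cast Nat.totient_pos.2 hq0
  apply le_of_eq
  field_simp

end Pool.Agent.T2H43.RR
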