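import Pool.Agent.T2H43.RR.Char
import Pool.Agent.T2H43.RR.Count1
import Pool.Agent.Helper507.PNT

set_option autoImplicit false

/-! The numbers of the split and of the inert primes of an integer which is not a square. -/

namespace Pool.Agent.T2H43.RR

open Finset Filter Topology Pool.Agent.R852.BC H343E Pool.Agent.H471R4.BW

/-- split primes -/
def Split (f : ℤ) (p : ℕ) : Prop := p ≠ 2 ∧ ¬ (p : ℤ) ∣ f ∧ ∃ t : ℤ, (p : ℤ) ∣ f - t ^ 2

/-- inert primes -/
def Inert (f : ℤ) (p : ℕ) : Prop := p ≠ 2 ∧ ¬ (p : ℤ) ∣ f ∧ ¬ ∃ t : ℤ, (p : ℤ) ∣ f - t ^ 2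

open Classical in
/-- the split primes up to `x` -/
noncomputable def splitS (f : ℤ) (x : ℕ) : Finset ℕ :=
  (Icc 1 x).filter fun p => p.Prime ∧ Split f p

open Classical in
/-- the inert primes up to `x` -/
noncomputable def inertS (f : ℤ) (x : ℕ) : Finset ℕ :=
  (Icc 1 x).filter fun p => p.Prime ∧ Inert f p

open Classical in
/-- the other primes up to `x` -/
noncomputable def ramS (f : ℤ) (x : ℕ) : Finset ℕ :=
  (Icc 1 x).filter fun p => p.Prime ∧ (p = 2 ∨ (p : ℤ) ∣ f)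

lemma sum_primes {M : Type*} [AddCommMonoid M] (f : ℤ) (x : ℕ) (g : ℕ → M) :
    ∑ p ∈ (Icc 1 x).filter (fun p => p.Prime), g p =
      ∑ p ∈ splitS f x, g p + ∑ p ∈ inertS f x, g p + ∑ p ∈ ramS f x, g p := by
  classical
  have h1 : (Icc 1 x).filter (fun p => p.Prime) = (splitS f x ∪ inertS f x) ∪ ramS f x := by
    ext p
    simp only [splitS, inertS, ramS, mem_filter, mem_union, Split, Inert]
    tauto
  rw [h1, sum_union, sum_union]
  · rw [disjoint_left]
    intro p h2 h3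
    simp only [splitS, inertS, mem_filter, Split, Inert] at h2 h3
    tauto
  · rw [disjoint_left]
    intro p h2 h3
    simp only [splitS, inertS, ramS, mem_filter, mem_union, Split, Inert] at h2 h3
    tauto

lemma pi_eq (f : ℤ) (x : ℕ) : pi1 x = (splitS f x).card + (inertS f x).card + (ramS f x).card := by
  have h := sum_primes f x (fun _ => (1 : ℝ))
  simpa [pi1] using h

lemma ram_card (f : ℤ) (hf : f ≠ 0) (x : ℕ) : ((ramS f x).card : ℝ) ≤ 2 * |(f : ℝ)| := by
  have h1 : ramS f x ⊆ Icc 1 (2 * f.natAbs) := by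
    intro p hp
    simp only [ramS, mem_filter, mem_Icc] at hp
    rw [mem_Icc]
    refine ⟨hp.1.1, ?_⟩
    have hf' : 0 < f.natAbs := Int.natAbs_pos.2 hf
    rcases hp.2.2 with h | h
    · omega
    · have := Nat.le_of_dvd hf' (Int.natCast_dvd.1 h)
      omega
  have h2 := card_le_card h1
  rw [Nat.card_Icc] at h2
  have h3 : ((ramS f x).card : ℝ) ≤ (2 * f.natAbs : ℕ) := by
    exact_mod_cast (by omega : (ramS f x).card ≤ 2 * f.natAbs)
  refine h3.trans (le_of_eq ?_)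
  push_cast
  rw [Nat.cast_natAbs]
  push_cast
  rfl

/-- the value of the symbol -/
lemma jac_val (f : ℤ) (p : ℕ) (hp : p.Prime) (hp2 : p ≠ 2) (hf : ¬ (p : ℤ) ∣ f) :
    ((∃ t : ℤ, (p : ℤ) ∣ f - t ^ 2) → jacobiSym f p = 1) ∧
    ((¬ ∃ t : ℤ, (p : ℤ) ∣ f - t ^ 2) → jacobiSym f p = -1) := by
  haveI : Fact p.Prime := ⟨hp⟩
  have hf0 : ((f : ℤ) : ZMod p) ≠ 0 := by
    rw [Ne, ZMod.intCast_zmod_eq_zero_iff_dvd]
    exact hf
  have hiff : (∃ t : ℤ, (p : ℤ) ∣ f - t ^ 2) ↔ IsSquare ((f : ℤ) : ZMod p) := by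
    constructor
    · rintro ⟨t, ht⟩
      refine ⟨(t : ZMod p), ?_⟩
      have h1 : ((f - t ^ 2 : ℤ) : ZMod p) = 0 := (ZMod.intCast_zmod_eq_zero_iff_dvd _ _).2 ht
      push_cast at h1
      linear_combination h1
    · rintro ⟨y, hy⟩
      refine ⟨(y.val : ℤ), ?_⟩
      rw [← ZMod.intCast_zmod_eq_zero_iff_dvd]
      push_cast
      rw [ZMod.natCast_zmod_val, hy]
      ring
  rw [← jacobiSym.legendreSym.to_jacobiSym]
  constructor
  · intro h
    exact (legendreSym.eq_one_iff p hf0).2 (hiff.1 h)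
  · intro h
    rw [legendreSym.eq_neg_one_iff]
    exact fun h2 => h (hiff.2 h2)

theorem exists_dirichlet (f : ℤ) (hf : ¬ IsSquare f) : ∃ (q : ℕ) (_ : NeZero q)
    (χ : DirichletCharacter ℂ q), χ ≠ 1 ∧ (q : ℝ) ≤ 8 * |(f : ℝ)| ∧
    ∀ x : ℕ, ‖∑ p ∈ (Icc 1 x).filter (fun p => p.Prime), χ (p : ZMod q) -
      (((splitS f x).card : ℂ) - ((inertS f x).card : ℂ))‖ ≤ ((ramS f x).card : ℝ) := by
  have hf0 : f ≠ 0 := by
    rintro rfl
    exact hf ⟨0, by norm_num⟩
  obtain ⟨N, θ, hN0, hodd, hsq, hNf, hN1, hval⟩ := exists_char2 f hf0 hf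
  haveI : NeZero N := ⟨hN0⟩
  haveI : NeZero (8 * N) := ⟨by omega⟩
  refine ⟨8 * N, inferInstance, chi 8 N (psi θ), chi_ne_one N hodd hsq θ hN1, ?_, ?_⟩
  · have h1 : N ≤ f.natAbs := Nat.le_of_dvd (Int.natAbs_pos.2 hf0) hNf
    have h2 : (N : ℝ) ≤ (f.natAbs : ℝ) := by exact_mod_cast h1
    rw [Nat.cast_natAbs] at h2
    push_cast at h2 ⊢
    linarith
  · intro x
    have hv : ∀ p : ℕ, p.Prime → p ≠ 2 → ¬ (p : ℤ) ∣ f →
        chi 8 N (psi θ) (p : ZMod (8 * N)) = ((jacobiSym f p : ℤ) : ℂ) := by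
      intro p hp hp2 hpf
      rw [chi_nat, psi_apply, jchar_apply, ← hval p hp hp2 hpf]
      push_cast
      rfl
    rw [sum_primes f x]
    have h1 : ∑ p ∈ splitS f x, chi 8 N (psi θ) (p : ZMod (8 * N)) = ((splitS f x).card : ℂ) := by
      rw [sum_congr rfl (g := fun _ => (1 : ℂ))]
      · simp
      · intro p hp
        simp only [splitS, mem_filter] at hp
        rw [hv p hp.2.1 hp.2.2.1 hp.2.2.2.1, (jac_val f p hp.2.1 hp.2.2.1 hp.2.2.2.1).1 hp.2.2.2.2]
        norm_num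
    have h2 : ∑ p ∈ inertS f x, chi 8 N (psi θ) (p : ZMod (8 * N)) = -((inertS f x).card : ℂ) := by
      rw [sum_congr rfl (g := fun _ => (-1 : ℂ))]
      · simp
      · intro p hp
        simp only [inertS, mem_filter] at hp
        rw [hv p hp.2.1 hp.2.2.1 hp.2.2.2.1, (jac_val f p hp.2.1 hp.2.2.1 hp.2.2.2.1).2 hp.2.2.2.2]
        norm_num
    rw [h1, h2]
    have e : ((splitS f x).card : ℂ) + -((inertS f x).card : ℂ) +
        ∑ p ∈ ramS f x, chi 8 N (psi θ) (p : ZMod (8 * N)) -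
        (((splitS f x).card : ℂ) - ((inertS f x).card : ℂ)) =
        ∑ p ∈ ramS f x, chi 8 N (psi θ) (p : ZMod (8 * N)) := by ring
    rw [e]
    refine (norm_sum_le_of_le _ (fun p _ => (chi 8 N (psi θ)).norm_le_one _)).trans ?_
    simp

/-- **The inert primes of small integers.** -/
theorem count (B : ℕ) (ε : ℝ) (hε : 0 < ε) : ∃ x0 : ℕ, ∀ x : ℕ, x0 ≤ x → ∀ f : ℤ, ¬ IsSquare f →
    |(f : ℝ)| ≤ Real.log x ^ B →
    (1 / 2 - ε) * (x / Real.log x) ≤ ((inertS f x).card : ℝ) ∧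
    ((inertS f x).card : ℝ) + ((ramS f x).card : ℝ) ≤ (1 / 2 + ε) * (x / Real.log x) := by
  obtain ⟨C, hC, x1, h1⟩ := sum_char (B + 1)
  have hnat : Tendsto (fun x : ℕ => (x : ℝ)) atTop atTop := tendsto_natCast_atTop_atTop
  have hlog : Tendsto (fun x : ℕ => Real.log x) atTop atTop := Real.tendsto_log_atTop.comp hnat
  -- conditions on `x`
  have c1 : ∀ᶠ x : ℕ in atTop, 8 ≤ Real.log x := hlog.eventually_ge_atTop 8
  have c2 : ∀ᶠ x : ℕ in atTop, 4 * (Real.log x ^ (B + 1)) ≤ (ε / 2) * x := by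
    have h := (Real.isLittleO_pow_log_id_atTop (n := B + 1)).def (show (0 : ℝ) < ε / 8 by positivity)
    filter_upwards [hnat.eventually h, eventually_ge_atTop 1, c1] with x hx hx1 hx8
    simp only [id, Real.norm_eq_abs] at hx
    rw [abs_of_nonneg (by positivity), abs_of_nonneg (Nat.cast_nonneg x)] at hx
    linarith
  have c3 : ∀ᶠ x : ℕ in atTop, C ≤ (ε / 2) * Real.log x ^ 4 := by
    filter_upwards [hlog.eventually_ge_atTop (max 1 (2 * C / ε))] with x hx
    have h2 : 1 ≤ Real.log x := (le_max_left _ _).trans hx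
    have h3 : 2 * C / ε ≤ Real.log x := (le_max_right _ _).trans hx
    have h4 : Real.log x ≤ Real.log x ^ 4 := le_self_pow₀ h2 (by norm_num)
    rw [div_le_iff₀ hε] at h3
    nlinarith
  have c4 : ∀ᶠ x : ℕ in atTop, |pi1 x - x / Real.log x| ≤ ε / 2 * (x / Real.log x) := by
    have h := (Pool.Agent.Helper507.PNT.pi_tendsto).comp hnat
    have h' := (Metric.tendsto_nhds.1 h) (ε / 2) (by positivity)
    filter_upwards [h', c1, eventually_ge_atTop 1] with x hx h8 hx1
    have hx0 : (0 : ℝ) < x := by exact_mod_cast hx1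
    have hL : 0 < Real.log x := by linarith
    simp only [Function.comp, Nat.floor_natCast, Real.dist_eq] at hx
    have hpi : (Nat.primeCounting x : ℝ) = pi1 x := by
      unfold pi1
      rw [Nat.primeCounting, Nat.primeCounting', Nat.count_eq_card_filter_range]
      congr 2
      ext p
      simp only [mem_filter, mem_range, mem_Icc]
      constructor
      · rintro ⟨h1, h2⟩
        exact ⟨⟨h2.one_le, by omega⟩, h2⟩
      · rintro ⟨h1, h2⟩
        exact ⟨by omega, h2⟩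
    rw [hpi] at hx
    have e : pi1 x - x / Real.log x = (pi1 x * Real.log x / x - 1) * (x / Real.log x) := by
      field_simp
    rw [e, abs_mul, abs_of_pos (show 0 < (x : ℝ) / Real.log x by positivity)]
    exact mul_le_mul_of_nonneg_right hx.le (by positivity)
  obtain ⟨x2, h2⟩ := eventually_atTop.1 (c1.and (c2.and (c3.and (c4.and (eventually_ge_atTop 1)))))
  refine ⟨max x1 x2, fun x hx f hf hfx => ?_⟩
  obtain ⟨d1, d2, d3, d4, d5⟩ := h2 x ((le_max_right _ _).trans hx)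
  have hx0 : (0 : ℝ) < x := by exact_mod_cast d5
  have hf0 : f ≠ 0 := by
    rintro rfl
    exact hf ⟨0, by norm_num⟩
  set L : ℝ := Real.log x with hLdef
  have hL : 0 < L := by linarith
  obtain ⟨q, hq0, χ, hχ, hqf, hsum⟩ := exists_dirichlet f hf
  have hqL : (q : ℝ) ≤ L ^ (B + 1) := by
    calc (q : ℝ) ≤ 8 * |(f : ℝ)| := hqf
      _ ≤ L * L ^ B := by
          apply mul_le_mul d1 hfx (abs_nonneg _) hL.le
      _ = L ^ (B + 1) := by ring
  have hs := h1 x ((le_max_left _ _).trans hx) q hqL χ hχ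
  have hs2 := hsum x
  have hram := ram_card f hf0 x
  have hpi := pi_eq f x
  set a : ℝ := ((splitS f x).card : ℝ) with ha
  set b : ℝ := ((inertS f x).card : ℝ) with hb
  set r : ℝ := ((ramS f x).card : ℝ) with hr
  have hdiff : |a - b| ≤ C * (x / L ^ 5) + r := by
    have e : ((a - b : ℝ) : ℂ) = ∑ p ∈ (Icc 1 x).filter (fun p => p.Prime), χ (p : ZMod q) -
        (∑ p ∈ (Icc 1 x).filter (fun p => p.Prime), χ (p : ZMod q) -
      (((splitS f x).card : ℂ) - ((inertS f x).card : ℂ))) := by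
      rw [ha, hb]
      push_cast
      ring
    have e2 : |a - b| = ‖((a - b : ℝ) : ℂ)‖ := by rw [Complex.norm_real, Real.norm_eq_abs]
    rw [e2, e]
    exact (norm_sub_le _ _).trans (add_le_add hs hs2)
  have hCx : C * (x / L ^ 5) ≤ ε / 2 * (x / L) := by
    have e : C * (x / L ^ 5) = C / L ^ 4 * (x / L) := by field_simp
    rw [e]
    apply mul_le_mul_of_nonneg_right _ (by positivity)
    rw [div_le_iff₀ (by positivity)]
    exact d3
  have hrx : 2 * r ≤ ε / 2 * (x / L) := by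
    have e1 : 2 * r ≤ 4 * L ^ B := by linarith [hram, hfx]
    refine e1.trans ?_
    rw [mul_div_assoc', le_div_iff₀ hL]
    calc 4 * L ^ B * L = 4 * L ^ (B + 1) := by ring
      _ ≤ ε / 2 * x := d2
  have hpos : 0 < x / L := by positivity
  rw [abs_le] at hdiff d4
  constructor
  · nlinarith [hdiff.1, hdiff.2, d4.1, d4.2]
  · nlinarith [hdiff.1, hdiff.2, d4.1, d4.2]

end Pool.Agent.T2H43.RR
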