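import Pool.Agent.T2H43.RR.Cons
import Pool.Agent.T2H43.RR.Count2
import Pool.Agent.R920.CH.TwoC

set_option autoImplicit false

/-! The least discriminants with a given squarefree part. -/

namespace Pool.Agent.T2H43.RR

open Finset Filter Topology Pool.Agent.R920.CH

/-- the inert primes below `n` divide `s` -/
lemma inert_dvd {n : ℕ} {c₁ c₂ f s : ℤ} (hRR : RiemannRoch n (poly2 c₁ c₂))
    (hfs : c₁ ^ 2 - 4 * c₂ = f * s ^ 2) (p : ℕ) (hp : p.Prime) (hpn : p < n) (hin : Inert f p) :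
    (p : ℤ) ∣ s := by
  by_contra hps
  apply hin.2.2
  obtain ⟨t, ht⟩ := square_mod hRR p hp hin.1 hpn
  rw [hfs] at ht
  have hpi := Nat.prime_iff_prime_int.1 hp
  obtain ⟨u, v, huv⟩ := (Irreducible.coprime_iff_not_dvd hpi.irreducible).mpr hps
  refine ⟨v * t, ?_⟩
  have e : f - (v * t) ^ 2 = v ^ 2 * (f * s ^ 2 - t ^ 2) + (p : ℤ) * (f * u * (2 - u * p)) := by
    have e1 : v * s = 1 - u * p := by linarith
    have e2 : (v * s) ^ 2 = (1 - u * p) ^ 2 := by rw [e1]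
    linear_combination (-f) * e2
  rw [e]
  exact dvd_add (Dvd.dvd.mul_left ht _) (dvd_mul_right _ _)

lemma prod_dvd {n : ℕ} (hn : 1 ≤ n) {c₁ c₂ f s : ℤ} (hRR : RiemannRoch n (poly2 c₁ c₂))
    (hfs : c₁ ^ 2 - 4 * c₂ = f * s ^ 2) : (∏ p ∈ inertS f (n - 1), p) ∣ s.natAbs := by
  apply Finset.prod_primes_dvd
  · intro p hp
    simp only [inertS, mem_filter] at hp
    exact hp.2.1.prime
  · intro p hp
    simp only [inertS, mem_filter, mem_Icc] at hp
    exact Int.natCast_dvd.1 (inert_dvd hRR hfs p hp.2.1 (by omega) hp.2.2)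

/-- the product of the members of a set of integers -/
lemma log_prod_ge (P : Finset ℕ) (hP : ∀ p ∈ P, 1 ≤ p) (y : ℝ) (hy : 1 ≤ y) :
    ((P.card : ℝ) - y) * Real.log y ≤ Real.log ((∏ p ∈ P, p : ℕ) : ℝ) := by
  classical
  have hpos : ∀ p ∈ P, ((p : ℕ) : ℝ) ≠ 0 := by
    intro p hp
    have := hP p hp
    positivity
  have hly : 0 ≤ Real.log y := Real.log_nonneg hy
  push_cast
  rw [Real.log_prod hpos]
  have h1 : ∑ p ∈ P.filter (fun p : ℕ => y < (p : ℝ)), Real.log y ≤ ∑ p ∈ P, Real.log (p : ℝ) := by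
    calc ∑ p ∈ P.filter (fun p : ℕ => y < (p : ℝ)), Real.log y
        ≤ ∑ p ∈ P.filter (fun p : ℕ => y < (p : ℝ)), Real.log (p : ℝ) := by
          apply sum_le_sum
          intro p hp
          rw [mem_filter] at hp
          exact Real.log_le_log (by linarith) hp.2.le
      _ ≤ ∑ p ∈ P, Real.log (p : ℝ) := by
          apply sum_le_sum_of_subset_of_nonneg (filter_subset _ _)
          intro p hp _
          exact Real.log_nonneg (by exact_mod_cast hP p hp)
  refine le_trans ?_ h1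
  rw [sum_const, nsmul_eq_mul]
  apply mul_le_mul_of_nonneg_right _ hly
  have h2 : P.card = (P.filter (fun p : ℕ => y < (p : ℝ))).card +
      (P.filter (fun p : ℕ => ¬ y < (p : ℝ))).card := by
    rw [card_filter_add_card_filter_not]
  have h3 : ((P.filter (fun p : ℕ => ¬ y < (p : ℝ))).card : ℝ) ≤ y := by
    have h4 : P.filter (fun p : ℕ => ¬ y < (p : ℝ)) ⊆ Icc 1 ⌊y⌋₊ := by
      intro p hp
      rw [mem_filter, not_lt] at hp
      rw [mem_Icc]
      exact ⟨hP p hp.1, Nat.le_floor hp.2⟩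
    have h5 := card_le_card h4
    rw [Nat.card_Icc, Nat.add_sub_cancel] at h5
    calc ((P.filter (fun p : ℕ => ¬ y < (p : ℝ))).card : ℝ) ≤ (⌊y⌋₊ : ℝ) := by exact_mod_cast h5
      _ ≤ y := Nat.floor_le (by linarith)
  have h6 : (P.card : ℝ) = ((P.filter (fun p : ℕ => y < (p : ℝ))).card : ℝ) +
      ((P.filter (fun p : ℕ => ¬ y < (p : ℝ))).card : ℝ) := by exact_mod_cast h2
  linarith

lemma card_pred (f : ℤ) (n : ℕ) (hn : 1 ≤ n) :
    ((inertS f n).card : ℝ) ≤ ((inertS f (n - 1)).card : ℝ) + 1 := by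
  classical
  have h1 : inertS f n ⊆ insert n (inertS f (n - 1)) := by
    intro p hp
    simp only [inertS, mem_filter, mem_Icc, mem_insert] at hp ⊢
    by_cases h : p = n
    · exact Or.inl h
    · exact Or.inr ⟨⟨hp.1.1, by omega⟩, hp.2⟩
  have h2 := (card_le_card h1).trans (card_insert_le _ _)
  exact_mod_cast h2

/-- the lower bound -/
theorem lower (B : ℕ) (ε : ℝ) (hε : 0 < ε) (hε1 : ε ≤ 1) : ∃ n₀ : ℕ, ∀ n : ℕ, n₀ ≤ n → ∀ f : ℤ,
    ¬ IsSquare f → |(f : ℝ)| ≤ Real.log n ^ B → ∀ c₁ c₂ s : ℤ, RiemannRoch n (poly2 c₁ c₂) →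
    c₁ ^ 2 - 4 * c₂ = f * s ^ 2 → s ≠ 0 →
    Real.exp ((1 - ε) * n) ≤ ((|c₁ ^ 2 - 4 * c₂| : ℤ) : ℝ) := by
  set δ : ℝ := ε / 8 with hδ
  have hδ0 : 0 < δ := by positivity
  obtain ⟨x0, h0⟩ := count B δ hδ0
  have hnat : Tendsto (fun x : ℕ => (x : ℝ)) atTop atTop := tendsto_natCast_atTop_atTop
  have hlog : Tendsto (fun x : ℕ => Real.log x) atTop atTop := Real.tendsto_log_atTop.comp hnat
  have c1 : ∀ᶠ x : ℕ in atTop, 1 ≤ Real.log x := hlog.eventually_ge_atTop 1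
  have c2 : ∀ᶠ x : ℕ in atTop, Real.log x ≤ (ε / 8) * (x : ℝ) ^ δ := by
    have h := (isLittleO_log_rpow_atTop hδ0).def (show (0 : ℝ) < ε / 8 by positivity)
    filter_upwards [hnat.eventually h, c1] with x hx h1
    simp only [Real.norm_eq_abs] at hx
    rwa [abs_of_nonneg (by linarith), abs_of_nonneg (Real.rpow_nonneg (Nat.cast_nonneg x) _)] at hx
  obtain ⟨x1, h1⟩ := eventually_atTop.1 (c1.and (c2.and (eventually_ge_atTop 1)))
  refine ⟨max x0 x1, fun n hn f hf hfn c₁ c₂ s hRR hfs hs => ?_⟩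
  obtain ⟨d1, d2, d3⟩ := h1 n ((le_max_right _ _).trans hn)
  have hn0 : (0 : ℝ) < n := by exact_mod_cast d3
  have hn1 : (1 : ℝ) ≤ n := by exact_mod_cast d3
  obtain ⟨hin, _⟩ := h0 n ((le_max_left _ _).trans hn) f hf hfn
  set L : ℝ := Real.log n with hL
  have hL0 : 0 < L := by linarith
  set P := inertS f (n - 1) with hP
  have hP1 : ∀ p ∈ P, 1 ≤ p := by
    intro p hp
    simp only [hP, inertS, mem_filter, mem_Icc] at hp
    exact hp.1.1
  set y : ℝ := (n : ℝ) ^ (1 - δ) with hy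
  have hδ1 : δ ≤ 1 / 8 := by rw [hδ]; linarith
  have hy1 : 1 ≤ y := Real.one_le_rpow hn1 (by linarith)
  have hlogy : Real.log y = (1 - δ) * L := by
    rw [hy, Real.log_rpow hn0]
  have h2 := log_prod_ge P hP1 y hy1
  have h3 := card_pred f n d3
  -- the logarithm of `s`
  have hdv := prod_dvd d3 hRR hfs
  have hs0 : 0 < s.natAbs := Int.natAbs_pos.2 hs
  have hle := Nat.le_of_dvd hs0 hdv
  have hprodpos : 0 < ∏ p ∈ P, p := prod_pos fun p hp => hP1 p hp
  have h4 : Real.log ((∏ p ∈ P, p : ℕ) : ℝ) ≤ Real.log (s.natAbs : ℝ) :=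
    Real.log_le_log (by exact_mod_cast hprodpos) (by exact_mod_cast hle)
  rw [hlogy] at h2
  -- the error
  have hyL : y * L ≤ ε / 8 * n := by
    have e : y * (n : ℝ) ^ δ = n := by
      rw [hy, ← Real.rpow_add hn0]
      norm_num
    calc y * L ≤ y * (ε / 8 * (n : ℝ) ^ δ) := mul_le_mul_of_nonneg_left d2 (by linarith)
      _ = ε / 8 * (y * (n : ℝ) ^ δ) := by ring
      _ = ε / 8 * n := by rw [e]
  have h5 : (1 - ε) * n / 2 ≤ Real.log (s.natAbs : ℝ) := by
    refine le_trans ?_ (h2.trans h4)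
    have h6 : (1 / 2 - δ) * (n / L) - 1 - y ≤ (P.card : ℝ) - y := by
      linarith
    have h7 : ((1 / 2 - δ) * (n / L) - 1 - y) * ((1 - δ) * L) ≤
        ((P.card : ℝ) - y) * ((1 - δ) * L) := by
      apply mul_le_mul_of_nonneg_right h6
      apply mul_nonneg <;> linarith
    refine le_trans ?_ h7
    have h8 : ((1 / 2 - δ) * (n / L) - 1 - y) * ((1 - δ) * L) =
        (1 - δ) * ((1 / 2 - δ) * n - L - y * L) := by
      field_simp
    rw [h8]
    have h9 : L ≤ ε / 8 * n := by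
      have : L ≤ y * L := by nlinarith
      linarith
    have h10 : (1 / 2 - δ) * n - ε / 8 * n - ε / 8 * n ≤ (1 / 2 - δ) * n - L - y * L := by linarith
    have h11 : (1 - δ) * ((1 / 2 - δ) * n - ε / 8 * n - ε / 8 * n) ≤
        (1 - δ) * ((1 / 2 - δ) * n - L - y * L) :=
      mul_le_mul_of_nonneg_left h10 (by linarith)
    refine le_trans ?_ h11
    have h12 : (1 - δ) * ((1 / 2 - δ) * n - ε / 8 * n - ε / 8 * n) =
        ((1 - δ) * (1 / 2 - 3 * δ)) * n := by rw [hδ]; ring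
    rw [h12]
    have h13 : (1 - ε) / 2 ≤ (1 - δ) * (1 / 2 - 3 * δ) := by
      rw [hδ]
      nlinarith
    calc (1 - ε) * n / 2 = (1 - ε) / 2 * n := by ring
      _ ≤ _ := mul_le_mul_of_nonneg_right h13 hn0.le
  -- conclusion
  have hsr : (0 : ℝ) < (s.natAbs : ℝ) := by exact_mod_cast hs0
  have h14 : Real.exp ((1 - ε) * n / 2) ≤ (s.natAbs : ℝ) := by
    rw [← Real.exp_log hsr]
    exact Real.exp_le_exp.2 h5
  have h15 : Real.exp ((1 - ε) * n) = Real.exp ((1 - ε) * n / 2) ^ 2 := by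
    rw [← Real.exp_nat_mul]
    congr 1
    push_cast
    ring
  rw [h15]
  have hf0 : f ≠ 0 := by
    rintro rfl
    exact hf ⟨0, by norm_num⟩
  have h16 : ((s.natAbs : ℕ) : ℝ) ^ 2 ≤ ((|c₁ ^ 2 - 4 * c₂| : ℤ) : ℝ) := by
    have h17 : ((s.natAbs : ℤ)) ^ 2 ≤ |c₁ ^ 2 - 4 * c₂| := by
      rw [hfs, abs_mul, abs_pow, Int.natCast_natAbs]
      have h18 : 1 ≤ |f| := Int.one_le_abs hf0
      have h19 : 0 ≤ |s| ^ 2 := by positivity
      nlinarith
    have h20 : (((s.natAbs : ℤ) ^ 2 : ℤ) : ℝ) = (s.natAbs : ℝ) ^ 2 := by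
      rw [Int.cast_pow, Int.cast_natCast]
    rw [← h20]
    exact Int.cast_le.2 h17
  exact (pow_le_pow_left₀ (Real.exp_pos _).le h14 2).trans h16

/-- the examples -/
theorem upper (B : ℕ) (ε : ℝ) (hε : 0 < ε) : ∃ n₀ : ℕ, ∀ n : ℕ, n₀ ≤ n → ∀ f : ℤ,
    ¬ IsSquare f → |(f : ℝ)| ≤ Real.log n ^ B → ∃ c₂ s : ℤ, RiemannRoch n (poly2 0 c₂) ∧
    -4 * c₂ = f * s ^ 2 ∧ s ≠ 0 ∧ ((|-4 * c₂| : ℤ) : ℝ) ≤ Real.exp ((1 + ε) * n) := by
  classical
  set δ : ℝ := ε / 4 with hδ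
  have hδ0 : 0 < δ := by positivity
  obtain ⟨x0, h0⟩ := count B δ hδ0
  have hnat : Tendsto (fun x : ℕ => (x : ℝ)) atTop atTop := tendsto_natCast_atTop_atTop
  have hlog : Tendsto (fun x : ℕ => Real.log x) atTop atTop := Real.tendsto_log_atTop.comp hnat
  have c1 : ∀ᶠ x : ℕ in atTop, 1 ≤ Real.log x := hlog.eventually_ge_atTop 1
  have c2 : ∀ᶠ x : ℕ in atTop, 4 * Real.log x ^ B ≤ (2 * δ) * x := by
    have h := (Real.isLittleO_pow_log_id_atTop (n := B)).def (show (0 : ℝ) < δ / 2 by positivity)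
    filter_upwards [hnat.eventually h, c1] with x hx h1
    simp only [id, Real.norm_eq_abs] at hx
    rw [abs_of_nonneg (by positivity), abs_of_nonneg (Nat.cast_nonneg x)] at hx
    linarith
  obtain ⟨x1, h1⟩ := eventually_atTop.1 (c1.and (c2.and (eventually_ge_atTop 1)))
  refine ⟨max x0 x1, fun n hn f hf hfn => ?_⟩
  obtain ⟨d1, d2, d3⟩ := h1 n ((le_max_right _ _).trans hn)
  have hn0 : (0 : ℝ) < n := by exact_mod_cast d3
  obtain ⟨_, hin⟩ := h0 n ((le_max_left _ _).trans hn) f hf hfn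
  set L : ℝ := Real.log n with hL
  have hL0 : 0 < L := by linarith
  set S := inertS f n ∪ ramS f n with hS
  set s : ℕ := ∏ p ∈ S, p ^ (Nat.log p n) with hs
  have hSp : ∀ p ∈ S, p.Prime ∧ p ≤ n := by
    intro p hp
    simp only [hS, inertS, ramS, mem_union, mem_filter, mem_Icc] at hp
    rcases hp with h | h
    · exact ⟨h.2.1, h.1.2⟩
    · exact ⟨h.2.1, h.1.2⟩
  have hs0 : 0 < s := prod_pos fun p hp => pow_pos (hSp p hp).1.pos _
  have hcond : Cond n f (s : ℤ) := by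
    intro p hp hpn
    by_cases hsp : p ≠ 2 ∧ ¬ (p : ℤ) ∣ f ∧ ∃ t : ℤ, (p : ℤ) ∣ f - t ^ 2
    · exact Or.inr hsp
    · left
      intro r hr
      have hpS : p ∈ S := by
        simp only [hS, inertS, ramS, mem_union, mem_filter, mem_Icc, Inert]
        have := hp.one_le
        tauto
      have h2 : p ^ r ∣ s := by
        refine dvd_trans (pow_dvd_pow p ?_) (dvd_prod_of_mem _ hpS)
        exact Nat.le_log_of_pow_le hp.one_lt hr
      exact_mod_cast h2
  have hsle : (s : ℝ) ≤ Real.exp ((1 / 2 + δ) * n) := by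
    have h2 : s ≤ n ^ S.card := by
      rw [hs]
      apply prod_le_pow_card
      intro p hp
      exact Nat.pow_log_le_self p (by omega)
    have h3 : (S.card : ℝ) ≤ (1 / 2 + δ) * (n / L) := by
      have h4 : S.card ≤ (inertS f n).card + (ramS f n).card := card_union_le _ _
      have h5 : (S.card : ℝ) ≤ ((inertS f n).card : ℝ) + ((ramS f n).card : ℝ) := by
        exact_mod_cast h4
      linarith
    calc (s : ℝ) ≤ ((n ^ S.card : ℕ) : ℝ) := by exact_mod_cast h2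
      _ = Real.exp (S.card * L) := by
          rw [hL, ← Real.log_pow, Real.exp_log (by positivity)]
          push_cast
          rfl
      _ ≤ Real.exp ((1 / 2 + δ) * n) := by
          apply Real.exp_le_exp.2
          calc (S.card : ℝ) * L ≤ ((1 / 2 + δ) * (n / L)) * L :=
                mul_le_mul_of_nonneg_right h3 hL0.le
            _ = (1 / 2 + δ) * n := by field_simp
  refine ⟨-(f * (s : ℤ) ^ 2), 2 * s, RR_of n f s hcond, by ring, ?_, ?_⟩
  · have : (0 : ℤ) < s := by exact_mod_cast hs0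
    positivity
  · have e : ((|-4 * -(f * (s : ℤ) ^ 2)| : ℤ) : ℝ) = (4 * |(f : ℝ)|) * (s : ℝ) ^ 2 := by
      have e1 : (-4 * -(f * (s : ℤ) ^ 2)) = (4 * f) * (s : ℤ) ^ 2 := by ring
      rw [e1, abs_mul, abs_mul, abs_pow]
      push_cast
      norm_num
    rw [e]
    have h2 : 4 * |(f : ℝ)| ≤ Real.exp (2 * δ * n) := by
      calc 4 * |(f : ℝ)| ≤ 4 * L ^ B := by linarith
        _ ≤ 2 * δ * n := d2
        _ ≤ Real.exp (2 * δ * n) := by linarith [Real.add_one_le_exp (2 * δ * n)]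
    calc (4 * |(f : ℝ)|) * (s : ℝ) ^ 2 ≤ Real.exp (2 * δ * n) * (Real.exp ((1 / 2 + δ) * n)) ^ 2 := by
          apply mul_le_mul h2 _ (by positivity) (Real.exp_pos _).le
          exact pow_le_pow_left₀ (Nat.cast_nonneg _) hsle 2
      _ = Real.exp ((1 + ε) * n) := by
          rw [← Real.exp_nat_mul, ← Real.exp_add]
          congr 1
          rw [hδ]
          push_cast
          ring

end Pool.Agent.T2H43.RR
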